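import Mathlib

set_option autoImplicit false
set_option linter.unusedSectionVars false

open Finset

namespace Pool.Agent.H88.Oh

variable {ι κ : Type} [DecidableEq ι] [DecidableEq κ] [Fintype κ]

/-- `S` is the set of colours of a system of distinct representatives of the (pairwise disjoint)
sets `A k` and the sets `L i`, `i ∈ I` -/
def Tr (A : κ → Finset ℕ) (L : ι → Finset ℕ) (I : Finset ι) (S : Finset ℕ) : Prop :=
  ∃ (g : κ → ℕ) (f : ι → ℕ), (∀ k, g k ∈ A k) ∧ (∀ i ∈ I, f i ∈ L i) ∧
    (∀ i ∈ I, ∀ j ∈ I, f i = f j → i = j) ∧ (∀ i ∈ I, ∀ k, f i ≠ g k) ∧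
    S = univ.image g ∪ I.image f

theorem Tr.mono {A A' : κ → Finset ℕ} {L L' : ι → Finset ℕ} {I : Finset ι} {S : Finset ℕ}
    (hA : ∀ k, A' k ⊆ A k) (hL : ∀ i, L' i ⊆ L i) (h : Tr A' L' I S) : Tr A L I S := by
  obtain ⟨g, f, h1, h2, h3, h4, h5⟩ := h
  exact ⟨g, f, fun k => hA k (h1 k), fun i hi => hL i (h2 i hi), h3, h4, h5⟩

theorem Tr.extend {A : κ → Finset ℕ} {L : ι → Finset ℕ} {I : Finset ι} {S : Finset ℕ} {j : ι}
    {c : ℕ} (hj : j ∈ I) (hc : c ∈ L j)
    (h : Tr (fun k => (A k).erase c) (fun i => (L i).erase c) (I.erase j) S) :
    Tr A L I (insert c S) ∧ c ∉ S := by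
  obtain ⟨g, f, h1, h2, h3, h4, h5⟩ := h
  have hg : ∀ k, g k ≠ c := fun k => (mem_erase.mp (h1 k)).1
  have hf : ∀ i ∈ I, i ≠ j → f i ≠ c := fun i hi hij =>
    (mem_erase.mp (h2 i (mem_erase.mpr ⟨hij, hi⟩))).1
  refine ⟨⟨g, Function.update f j c, fun k => (mem_erase.mp (h1 k)).2, ?_, ?_, ?_, ?_⟩, ?_⟩
  · intro i hi
    by_cases hij : i = j
    · subst hij; simpa using hc
    · rw [Function.update_of_ne hij]
      exact (mem_erase.mp (h2 i (mem_erase.mpr ⟨hij, hi⟩))).2
  · intro i hi i' hi' he
    by_cases hij : i = j
    · by_cases hij' : i' = j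
      · rw [hij, hij']
      · subst hij
        rw [Function.update_self, Function.update_of_ne hij'] at he
        exact absurd he.symm (hf i' hi' hij')
    · by_cases hij' : i' = j
      · subst hij'
        rw [Function.update_self, Function.update_of_ne hij] at he
        exact absurd he (hf i hi hij)
      · rw [Function.update_of_ne hij, Function.update_of_ne hij'] at he
        exact h3 i (mem_erase.mpr ⟨hij, hi⟩) i' (mem_erase.mpr ⟨hij', hi'⟩) he
  · intro i hi k
    by_cases hij : i = j
    · subst hij; rw [Function.update_self]; exact (hg k).symm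
    · rw [Function.update_of_ne hij]
      exact h4 i (mem_erase.mpr ⟨hij, hi⟩) k
  · have e1 : I.image (Function.update f j c) = insert c ((I.erase j).image f) := by
      ext x
      simp only [mem_image, mem_insert, mem_erase]
      constructor
      · rintro ⟨i, hi, rfl⟩
        by_cases hij : i = j
        · subst hij; left; simp
        · right; exact ⟨i, ⟨hij, hi⟩, (Function.update_of_ne hij _ _).symm⟩
      · rintro (rfl | ⟨i, ⟨hij, hi⟩, rfl⟩)
        · exact ⟨j, hj, by simp⟩
        · exact ⟨i, hi, Function.update_of_ne hij _ _⟩
    rw [e1, h5, union_insert]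
  · rw [h5]
    simp only [mem_union, mem_image, mem_univ, true_and, not_or, not_exists, not_and]
    refine ⟨hg, fun i hi => ?_⟩
    rw [mem_erase] at hi
    exact hf i hi.2 hi.1

theorem base_case {A : κ → Finset ℕ} {L : ι → Finset ℕ} {F : Finset (Finset ℕ)}
    (hd : ∀ k k', k ≠ k' → Disjoint (A k) (A k'))
    (hF : ∀ S, Tr A L ∅ S → S ∈ F) : ∏ k, (A k).card ≤ F.card := by
  classical
  rw [← Fintype.card_piFinset]
  apply Finset.card_le_card_of_injOn (fun g => univ.image g)
  · intro g hg
    have hg' : ∀ k, g k ∈ A k := by simpa [Fintype.mem_piFinset] using hg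
    exact hF _ ⟨g, fun _ => 0, hg', by simp, by simp, by simp, by simp⟩
  · intro g hg g' hg' he
    have h1 : ∀ k, g k ∈ A k := by simpa [Fintype.mem_piFinset] using hg
    have h2 : ∀ k, g' k ∈ A k := by simpa [Fintype.mem_piFinset] using hg'
    funext k
    have h3 : g k ∈ univ.image g' := by
      have : g k ∈ univ.image g := mem_image_of_mem _ (mem_univ k)
      simp only at he
      rwa [he] at this
    obtain ⟨k', _, h4⟩ := mem_image.mp h3
    by_cases hk : k' = k
    · subst hk; exact h4.symm
    · exact absurd (h1 k) (disjoint_left.mp (hd k' k hk) (h4 ▸ h2 k'))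

/-- the counting theorem -/
theorem count (l : ℕ) : ∀ (d : ℕ) (I : Finset ι) (A : κ → Finset ℕ) (L : ι → Finset ℕ)
    (F : Finset (Finset ℕ)), (∀ k k', k ≠ k' → Disjoint (A k) (A k')) →
    (∀ k, l + d ≤ (A k).card) → (∃ k, (A k).card = l + d) → (∀ i ∈ I, l ≤ (L i).card) →
    (∀ S, Tr A L I S → S ∈ F) →
    (l.choose (I.card + 1) + d * l.choose I.card) * ∏ k, (A k).card ≤ F.card * (l + d) := by
  induction l with
  | zero =>
    intro d I A L F hd hA hA' hL hF
    rcases I.eq_empty_or_nonempty with rfl | hI
    · have := base_case hd hF
      simp only [card_empty, zero_add, Nat.choose_zero_right, mul_one, Nat.choose_one_right]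
      rw [mul_comm]
      exact Nat.mul_le_mul_right _ this
    · obtain ⟨t, ht⟩ : ∃ t, I.card = t + 1 := ⟨I.card - 1, by have := hI.card_pos; omega⟩
      rw [ht]
      simp
  | succ l ih =>
    intro d I A L F hd hA hA' hL hF
    rcases I.eq_empty_or_nonempty with rfl | hI
    · have := base_case hd hF
      simp only [card_empty, zero_add, Nat.choose_zero_right, mul_one, Nat.choose_one_right]
      rw [mul_comm]
      exact Nat.mul_le_mul_right _ this
    · obtain ⟨j, hj⟩ := hI
      obtain ⟨t, ht⟩ : ∃ t, I.card = t + 1 := ⟨I.card - 1, by
        have := card_pos.mpr ⟨j, hj⟩; omega⟩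
      have htj : (I.erase j).card = t := by rw [card_erase_of_mem hj, ht]; rfl
      obtain ⟨c, hc⟩ : (L j).Nonempty := card_pos.mp (by have := hL j hj; omega)
      set A' : κ → Finset ℕ := fun k => (A k).erase c with hA'd
      set L' : ι → Finset ℕ := fun i => (L i).erase c with hL'd
      set F1 := (F.filter (fun S => c ∈ S)).image (fun S => S.erase c) with hF1
      set F2 := F.filter (fun S => c ∉ S) with hF2
      have hcard : F1.card + F2.card ≤ F.card := by
        have h1 : F1.card ≤ (F.filter (fun S => c ∈ S)).card := card_image_le
        have h2 : (F.filter (fun S => c ∈ S)).card + F2.card = F.card :=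
          Finset.card_filter_add_card_filter_not (s := F) (fun S => c ∈ S)
        omega
      have hd' : ∀ k k', k ≠ k' → Disjoint (A' k) (A' k') := fun k k' hk =>
        (hd k k' hk).mono (erase_subset _ _) (erase_subset _ _)
      have hL' : ∀ i ∈ I, l ≤ (L' i).card := fun i hi => by
        have h1 := hL i hi
        have h2 := pred_card_le_card_erase (s := L i) (a := c)
        simp only [hL'd]
        omega
      have hT1 : ∀ S, Tr A' L' (I.erase j) S → S ∈ F1 := by
        intro S hS
        obtain ⟨h1, h2⟩ := hS.extend hj hc
        rw [hF1, mem_image]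
        exact ⟨insert c S, mem_filter.mpr ⟨hF _ h1, mem_insert_self _ _⟩, erase_insert h2⟩
      have hT2 : ∀ S, Tr A' L' I S → S ∈ F2 := by
        intro S hS
        rw [hF2, mem_filter]
        refine ⟨hF _ (hS.mono (fun k => erase_subset _ _) (fun i => erase_subset _ _)), ?_⟩
        obtain ⟨g, f, h1, h2, h3, h4, h5⟩ := hS
        rw [h5]
        simp only [mem_union, mem_image, mem_univ, true_and, not_or, not_exists, not_and]
        exact ⟨fun k => (mem_erase.mp (h1 k)).1, fun i hi => (mem_erase.mp (h2 i hi)).1⟩
      -- the two recursive bounds added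
      have key : ∀ d', (∀ k, l + d' ≤ (A' k).card) → (∃ k, (A' k).card = l + d') →
          ((l + 1).choose (t + 2) + d' * (l + 1).choose (t + 1)) * ∏ k, (A' k).card
            ≤ F.card * (l + d') := by
        intro d' h1 h2
        have e1 := ih d' (I.erase j) A' L' F1 hd' h1 h2
          (fun i hi => hL' i (mem_of_mem_erase hi)) hT1
        have e2 := ih d' I A' L' F2 hd' h1 h2 hL' hT2
        rw [htj] at e1
        rw [ht] at e2
        have e3 : (F1.card + F2.card) * (l + d') ≤ F.card * (l + d') :=
          Nat.mul_le_mul_right _ hcard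
        rw [Nat.choose_succ_succ l (t + 1), Nat.choose_succ_succ l t]
        calc _ = (l.choose (t + 1) + d' * l.choose t) * ∏ k, (A' k).card
              + (l.choose (t + 1 + 1) + d' * l.choose (t + 1)) * ∏ k, (A' k).card := by
              simp only [Nat.succ_eq_add_one]; ring
          _ ≤ F1.card * (l + d') + F2.card * (l + d') := add_le_add e1 e2
          _ = (F1.card + F2.card) * (l + d') := by ring
          _ ≤ _ := e3
      rw [ht]
      by_cases hcA : ∃ i, c ∈ A i
      · obtain ⟨i, hi⟩ := hcA
        have hother : ∀ k, k ≠ i → A' k = A k := fun k hk =>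
          erase_eq_of_notMem (fun h => (disjoint_left.mp (hd k i hk) h) hi)
        have hi' : (A' i).card + 1 = (A i).card := by
          simp only [hA'd]; exact card_erase_add_one hi
        have hprod : (∏ k, (A' k).card) * (A i).card = (∏ k, (A k).card) * (A' i).card := by
          rw [← mul_prod_erase univ (fun k => (A' k).card) (mem_univ i),
            ← mul_prod_erase univ (fun k => (A k).card) (mem_univ i)]
          have : ∏ k ∈ univ.erase i, (A' k).card = ∏ k ∈ univ.erase i, (A k).card :=
            prod_congr rfl fun k hk => by rw [hother k (mem_erase.mp hk).1]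
          rw [this]; ring
        by_cases hp : (A i).card = l + 1 + d
        · -- the minimum drops
          rcases Nat.eq_zero_or_pos (l + d) with h0 | h0
          · have hl : l = 0 := by omega
            have hd0 : d = 0 := by omega
            subst hl hd0
            have : (0 + 1).choose (t + 1 + 1) = 0 := Nat.choose_eq_zero_of_lt (by omega)
            rw [this]; simp
          · have h1 := key d (fun k => by
                by_cases hk : k = i
                · subst hk; omega
                · rw [hother k hk]; have := hA k; omega) ⟨i, by omega⟩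
            have h2 : (((l + 1).choose (t + 2) + d * (l + 1).choose (t + 1)) *
                ∏ k, (A k).card) * (l + d) ≤ (F.card * (l + 1 + d)) * (l + d) := by
              have e1 : (A' i).card = l + d := by omega
              calc _ = ((l + 1).choose (t + 2) + d * (l + 1).choose (t + 1)) *
                  ((∏ k, (A k).card) * (A' i).card) := by rw [e1]; ring
                _ = (((l + 1).choose (t + 2) + d * (l + 1).choose (t + 1)) *
                  ∏ k, (A' k).card) * (A i).card := by rw [← hprod]; ring
                _ ≤ (F.card * (l + d)) * (A i).card := Nat.mul_le_mul_right _ h1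
                _ = _ := by rw [hp]; ring
            exact Nat.le_of_mul_le_mul_right h2 h0
        · have hp' : l + 1 + d + 1 ≤ (A i).card := by have := hA i; omega
          obtain ⟨k0, hk0⟩ := hA'
          have hk0i : k0 ≠ i := by rintro rfl; exact hp hk0
          have h1 := key (d + 1) (fun k => by
              by_cases hk : k = i
              · subst hk; omega
              · rw [hother k hk]; have := hA k; omega) ⟨k0, by rw [hother k0 hk0i]; omega⟩
          set C := (l + 1).choose (t + 1) with hC
          set G := (l + 1).choose (t + 2) + d * C with hG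
          have hGC : G ≤ (l + 1 + d) * C := by
            have e1 : (l + 1).choose (t + 2) ≤ (l + 1) * C := by
              have e2 := Nat.choose_succ_right_eq (l + 1) (t + 1)
              have e3 : (l + 1).choose (t + 1 + 1) * 1 ≤ (l + 1).choose (t + 1 + 1) * (t + 1 + 1) :=
                Nat.mul_le_mul_left _ (by omega)
              have e4 : (l + 1).choose (t + 1) * (l + 1 - (t + 1)) ≤ C * (l + 1) :=
                Nat.mul_le_mul_left _ (by omega)
              calc (l + 1).choose (t + 2) = (l + 1).choose (t + 1 + 1) * 1 := by ring_nf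
                _ ≤ _ := e3
                _ = _ := e2
                _ ≤ _ := e4
                _ = _ := by ring
            calc G ≤ (l + 1) * C + d * C := Nat.add_le_add_right e1 _
              _ = _ := by ring
          have h2 : (A i).card * (G * ∏ k, (A k).card) ≤ (A i).card * (F.card * (l + 1 + d)) := by
            have e1 : (A i).card * G ≤ (A' i).card * (G + C) := by
              have e2 : (A i).card * G = (A' i).card * G + G := by rw [← hi']; ring
              have e3 : G ≤ (A' i).card * C :=
                hGC.trans (Nat.mul_le_mul_right _ (by omega))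
              have e4 : (A' i).card * (G + C) = (A' i).card * G + (A' i).card * C := Nat.mul_add _ _ _
              rw [e2, e4]
              exact Nat.add_le_add_left e3 _
            calc (A i).card * (G * ∏ k, (A k).card) = ((A i).card * G) * ∏ k, (A k).card := by ring
              _ ≤ ((A' i).card * (G + C)) * ∏ k, (A k).card := Nat.mul_le_mul_right _ e1
              _ = (G + C) * ((∏ k, (A k).card) * (A' i).card) := by ring
              _ = (((l + 1).choose (t + 2) + (d + 1) * C) * ∏ k, (A' k).card) * (A i).card := by
                  rw [← hprod, hG]; ring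
              _ ≤ (F.card * (l + (d + 1))) * (A i).card := Nat.mul_le_mul_right _ h1
              _ = _ := by ring
          exact Nat.le_of_mul_le_mul_left h2 (by omega)
      · push Not at hcA
        have hAA : ∀ k, A' k = A k := fun k => erase_eq_of_notMem (hcA k)
        have h1 := key (d + 1) (fun k => by rw [hAA]; have := hA k; omega) (by
          obtain ⟨k, hk⟩ := hA'
          exact ⟨k, by rw [hAA]; omega⟩)
        have h2 : ∏ k, (A' k).card = ∏ k, (A k).card := prod_congr rfl fun k _ => by rw [hAA]
        rw [h2] at h1
        calc _ ≤ ((l + 1).choose (t + 2) + (d + 1) * (l + 1).choose (t + 1)) *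
              ∏ k, (A k).card := by
              apply Nat.mul_le_mul_right
              have : d * (l + 1).choose (t + 1) ≤ (d + 1) * (l + 1).choose (t + 1) :=
                Nat.mul_le_mul_right _ (by omega)
              exact Nat.add_le_add_left this _
          _ ≤ _ := h1
          _ = _ := by ring

end Pool.Agent.H88.Oh
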