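import Mathlib
import Pool.Agent.H88.Oh.Count
import Pool.Graph.R_pool_sql_team_ae5b0c61.H20.Oh4

set_option autoImplicit false

open Finset

namespace Pool.Agent.H88.Oh

open H20.Oh

/-- greedy systems of distinct representatives -/
theorem greedy {ι : Type} [DecidableEq ι] (M : ι → Finset ℕ) (I : Finset ι) :
    (∀ i ∈ I, I.card ≤ (M i).card) →
    ∃ f : ι → ℕ, (∀ i ∈ I, f i ∈ M i) ∧ (∀ i ∈ I, ∀ j ∈ I, f i = f j → i = j) := by
  induction I using Finset.induction_on with
  | empty => intro _; exact ⟨fun _ => 0, by simp, by simp⟩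
  | insert a I ha ih =>
    intro h
    rw [card_insert_of_notMem ha] at h
    obtain ⟨f, h1, h2⟩ := ih (fun i hi => by have := h i (mem_insert_of_mem hi); omega)
    obtain ⟨x, hx⟩ : ((M a) \ I.image f).Nonempty := by
      rw [← card_pos]
      have e1 := le_card_sdiff (I.image f) (M a)
      have e2 : (I.image f).card ≤ I.card := card_image_le
      have e3 := h a (mem_insert_self _ _)
      omega
    rw [mem_sdiff] at hx
    have hne : ∀ i ∈ I, i ≠ a := fun i hi => by rintro rfl; exact ha hi
    have hx2 : ∀ i ∈ I, f i ≠ x := fun i hi e => hx.2 (e ▸ mem_image_of_mem f hi)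
    refine ⟨Function.update f a x, ?_, ?_⟩
    · intro i hi
      rcases mem_insert.mp hi with rfl | hi
      · simpa using hx.1
      · rw [Function.update_of_ne (hne i hi)]; exact h1 i hi
    · intro i hi j hj he
      rcases mem_insert.mp hi with hi1 | hi1
      · rcases mem_insert.mp hj with hj1 | hj1
        · rw [hi1, hj1]
        · rw [hi1, Function.update_self, Function.update_of_ne (hne j hj1)] at he
          exact absurd he.symm (hx2 j hj1)
      · rcases mem_insert.mp hj with hj1 | hj1
        · rw [hj1, Function.update_self, Function.update_of_ne (hne i hi1)] at he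
          exact absurd he (hx2 i hi1)
        · rw [Function.update_of_ne (hne i hi1), Function.update_of_ne (hne j hj1)] at he
          exact h2 i hi1 j hj1 he

/-- colourings of the join from a system of representatives -/
theorem colour {t a b k : ℕ} (L : Fin t ⊕ Fin a ⊕ Fin b → Finset ℕ) (hL : ∀ v, (L v).card = k)
    (g : Fin a → ℕ) (f : Fin t → ℕ) (h1 : ∀ i, g i ∈ L (Sum.inr (Sum.inl i)))
    (h2 : ∀ i, f i ∈ L (Sum.inl i)) (h3 : ∀ i j, f i = f j → i = j) (h4 : ∀ i j, f i ≠ g j)
    (h5 : ∀ j, ¬ L (Sum.inr (Sum.inr j)) ⊆ univ.image g ∪ univ.image f) :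
    ∃ c : Fin t ⊕ Fin a ⊕ Fin b → ℕ, (∀ v, c v ∈ L v) ∧ ∀ u v, (JG t a b).Adj u v → c u ≠ c v := by
  have h6 : ∀ j, ∃ x ∈ L (Sum.inr (Sum.inr j)), x ∉ univ.image g ∪ univ.image f := fun j => by
    simpa [not_subset] using h5 j
  choose x h7 h8 using h6
  simp only [mem_union, mem_image, mem_univ, true_and, not_or, not_exists] at h8
  refine ⟨Sum.elim f (Sum.elim g x), ?_, ?_⟩
  · rintro (u | u | u)
    · exact h2 u
    · exact h1 u
    · exact h7 u
  · intro u v huv
    rw [adj_iff] at huv
    rcases u with u | u | u <;> rcases v with v | v | v <;>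
      simp only [Sum.elim_inl, Sum.elim_inr]
    · exact fun e => huv.1 (by rw [h3 _ _ e])
    · exact h4 u v
    · exact (h8 v).2 u
    · exact (h4 v u).symm
    · exact absurd (Or.inl ⟨u, v, rfl, rfl⟩) huv.2
    · exact (h8 v).1 u
    · exact fun e => (h8 u).2 v e.symm
    · exact fun e => (h8 u).1 v e.symm
    · exact absurd (Or.inr ⟨u, v, rfl, rfl⟩) huv.2

/-- choosability below the threshold -/
theorem choosable_of_lt (s t b : ℕ)
    (hb : b < (t + s + 2).choose (t + 1) * (t + s + 2) ^ (s + 1)) :
    Choosable (JG t (s + 2) b) (t + s + 2) := by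
  intro L hL
  set k := t + s + 2 with hk
  by_cases hd : ∀ i j : Fin (s + 2), i ≠ j →
      Disjoint (L (Sum.inr (Sum.inl i))) (L (Sum.inr (Sum.inl j)))
  · -- disjoint lists: counting
    by_cases hex : ∃ S, Tr (fun i : Fin (s + 2) => L (Sum.inr (Sum.inl i)))
        (fun i : Fin t => L (Sum.inl i)) univ S ∧
        S ∉ (univ : Finset (Fin b)).image (fun j => L (Sum.inr (Sum.inr j)))
    · obtain ⟨S, ⟨g, f, h1, h2, h3, h4, h5⟩, h6⟩ := hex
      refine colour L hL g f h1 (fun i => h2 i (mem_univ _))
        (fun i j => h3 i (mem_univ _) j (mem_univ _)) (fun i j => h4 i (mem_univ _) j) ?_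
      intro j hj
      apply h6
      rw [h5, mem_image]
      refine ⟨j, mem_univ _, eq_of_subset_of_card_le hj ?_⟩
      rw [hL]
      calc _ ≤ ((univ : Finset (Fin (s + 2))).image g).card
            + ((univ : Finset (Fin t)).image f).card := card_union_le _ _
        _ ≤ (s + 2) + t := add_le_add (card_image_le.trans (by simp)) (card_image_le.trans (by simp))
        _ = k := by omega
    · exfalso
      push Not at hex
      have h1 := count k 0 (univ : Finset (Fin t)) (fun i : Fin (s + 2) => L (Sum.inr (Sum.inl i)))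
        (fun i : Fin t => L (Sum.inl i))
        ((univ : Finset (Fin b)).image (fun j => L (Sum.inr (Sum.inr j)))) hd
        (fun i => by simp [hL]) ⟨0, by simp [hL]⟩ (fun i _ => by simp [hL]) hex
      have h2 : ((univ : Finset (Fin b)).image (fun j => L (Sum.inr (Sum.inr j)))).card ≤ b :=
        card_image_le.trans (by simp)
      simp only [hL, prod_const, card_univ, Fintype.card_fin, zero_mul, add_zero] at h1
      have h3 : k.choose (t + 1) * k ^ (s + 1) * k ≤ b * k := by
        calc k.choose (t + 1) * k ^ (s + 1) * k = k.choose (t + 1) * k ^ (s + 2) := by ring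
          _ ≤ _ := h1
          _ ≤ b * k := Nat.mul_le_mul_right _ h2
      have h4 := Nat.le_of_mul_le_mul_right h3 (by omega)
      omega
  · -- two lists meet
    push Not at hd
    obtain ⟨i0, j0, hij, hd⟩ := hd
    rw [not_disjoint_iff] at hd
    obtain ⟨x, hx1, hx2⟩ := hd
    have hne : ∀ i : Fin (s + 2), (L (Sum.inr (Sum.inl i))).Nonempty := fun i =>
      card_pos.mp (by rw [hL]; omega)
    choose g0 hg0 using hne
    set g : Fin (s + 2) → ℕ := fun i => if i = i0 ∨ i = j0 then x else g0 i with hg
    have hgc : ((univ : Finset (Fin (s + 2))).image g).card ≤ s + 1 := by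
      have : (univ : Finset (Fin (s + 2))).image g = (univ.erase i0).image g := by
        ext y
        simp only [mem_image, mem_univ, true_and, mem_erase, and_true]
        constructor
        · rintro ⟨i, rfl⟩
          by_cases hi : i = i0
          · exact ⟨j0, hij.symm, by simp [hg, hi]⟩
          · exact ⟨i, hi, rfl⟩
        · rintro ⟨i, _, rfl⟩; exact ⟨i, rfl⟩
      rw [this]
      refine card_image_le.trans ?_
      rw [card_erase_of_mem (mem_univ _)]
      simp
    obtain ⟨f, hf1, hf2⟩ := greedy (fun i : Fin t => L (Sum.inl i) \ univ.image g) univ (by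
      intro i _
      have e1 := le_card_sdiff (univ.image g) (L (Sum.inl i))
      rw [hL] at e1
      simp only [card_univ, Fintype.card_fin]
      omega)
    refine colour L hL g f ?_ (fun i => (mem_sdiff.mp (hf1 i (mem_univ _))).1)
      (fun i j => hf2 i (mem_univ _) j (mem_univ _)) ?_ ?_
    · intro i
      simp only [hg]
      split_ifs with h
      · rcases h with rfl | rfl
        · exact hx1
        · exact hx2
      · exact hg0 i
    · intro i j e
      exact (mem_sdiff.mp (hf1 i (mem_univ _))).2 (e ▸ mem_image_of_mem g (mem_univ j))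
    · intro j hj
      have e1 := card_le_card hj
      rw [hL] at e1
      have e2 := card_union_le (univ.image g) ((univ : Finset (Fin t)).image f)
      have e3 : ((univ : Finset (Fin t)).image f).card ≤ t := card_image_le.trans (by simp)
      omega

/-- no choosability from the threshold on -/
theorem not_choosable_of_le (s t b : ℕ)
    (hb : (t + s + 2).choose (t + 1) * (t + s + 2) ^ (s + 1) ≤ b) :
    ¬ Choosable (JG t (s + 2) b) (t + s + 2) := by
  intro h
  set m := t + s + 2 with hm
  let P : Finset (Finset ℕ) := powersetCard (t + 1) (range m)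
  let f : {T // T ∈ P} × (Fin (s + 1) → Fin m) → Finset ℕ := fun p =>
    p.1.1 ∪ univ.image (fun k : Fin (s + 1) => (k.val + 1) * m + (p.2 k).val)
  have hcard : Fintype.card ({T // T ∈ P} × (Fin (s + 1) → Fin m)) ≤ Fintype.card (Fin b) := by
    have e1 : Fintype.card {T // T ∈ P} = m.choose (t + 1) := by
      rw [Fintype.card_coe, card_powersetCard, card_range]
    rw [Fintype.card_prod, e1]
    simpa using hb
  obtain ⟨e⟩ := Function.Embedding.nonempty_of_card_le hcard
  classical
  let Wl : Fin b → Finset ℕ := fun k =>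
    if h : ∃ p, e p = k ∧ (f p).card = m then f h.choose else range m
  let L : Fin t ⊕ Fin (s + 2) ⊕ Fin b → Finset ℕ := Sum.elim (fun _ => range m)
    (Sum.elim (fun j => Ico (j.val * m) (j.val * m + m)) Wl)
  obtain ⟨c, h1, h2⟩ := h L (by
    rintro (u | u | u)
    · simp [L]
    · simp [L]
    · simp only [L, Wl, Sum.elim_inr]
      split_ifs with h
      · exact h.choose_spec.2
      · simp)
  have hK : ∀ i, c (Sum.inl i) < m := fun i => by simpa [L] using h1 (Sum.inl i)
  have hA : ∀ j : Fin (s + 2), j.val * m ≤ c (Sum.inr (Sum.inl j)) ∧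
      c (Sum.inr (Sum.inl j)) < j.val * m + m := fun j => by
    simpa [L] using h1 (Sum.inr (Sum.inl j))
  let z : Fin (s + 2) := ⟨0, by omega⟩
  let S : Finset ℕ := insert (c (Sum.inr (Sum.inl z))) (univ.image fun i => c (Sum.inl i))
  have hS : S ⊆ range m := by
    intro x hx
    rcases mem_insert.mp hx with rfl | hx
    · simpa [z] using (hA z).2
    · obtain ⟨i, _, rfl⟩ := mem_image.mp hx
      exact mem_range.mpr (hK i)
  have hSc : S.card = t + 1 := by
    rw [card_insert_of_notMem, card_image_of_injective]
    · simp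
    · intro i j hij
      by_contra hne
      exact h2 (Sum.inl i) (Sum.inl j) (by rw [adj_iff]; simpa using hne) hij
    · intro hx
      obtain ⟨i, _, hi⟩ := mem_image.mp hx
      exact h2 (Sum.inl i) (Sum.inr (Sum.inl z)) (by rw [adj_iff]; simp) hi
  let Y : {T // T ∈ P} := ⟨S, mem_powersetCard.mpr ⟨hS, hSc⟩⟩
  let g : Fin (s + 1) → Fin (s + 2) := fun k => ⟨k.val + 1, by omega⟩
  let y : Fin (s + 1) → Fin m := fun k => ⟨c (Sum.inr (Sum.inl (g k))) - (k.val + 1) * m, by
    have := hA (g k); simp only [g] at this ⊢; omega⟩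
  have hy : ∀ k : Fin (s + 1), (k.val + 1) * m + (y k).val = c (Sum.inr (Sum.inl (g k))) :=
    fun k => by have := hA (g k); simp only [g, y] at this ⊢; omega
  have hf : f (Y, y) = S ∪ univ.image (fun k : Fin (s + 1) => (k.val + 1) * m + (y k).val) := rfl
  have hfc : (f (Y, y)).card = m := by
    rw [hf, card_union_of_disjoint, hSc, card_image_of_injective]
    · simp only [card_univ, Fintype.card_fin]; omega
    · intro k l hkl
      have a1 := (y k).2
      have a2 := (y l).2
      simp only at hkl
      apply Fin.ext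
      rcases lt_trichotomy k.val l.val with e | e | e
      · nlinarith
      · exact e
      · nlinarith
    · rw [disjoint_left]
      intro x hx hx'
      obtain ⟨k, _, rfl⟩ := mem_image.mp hx'
      have := mem_range.mp (hS hx)
      nlinarith
  have hex : ∃ p, e p = e (Y, y) ∧ (f p).card = m := ⟨_, rfl, hfc⟩
  have hW : Wl (e (Y, y)) = f (Y, y) := by
    simp only [Wl]
    rw [dif_pos hex, e.injective hex.choose_spec.1]
  have h3 := h1 (Sum.inr (Sum.inr (e (Y, y))))
  simp only [L, Sum.elim_inr] at h3
  rw [hW, hf] at h3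
  rcases mem_union.mp h3 with h4 | h4
  · rcases mem_insert.mp h4 with h5 | h5
    · exact h2 _ _ (by rw [adj_iff]; simp) h5
    · obtain ⟨i, _, h6⟩ := mem_image.mp h5
      exact h2 _ _ (by rw [adj_iff]; simp) h6
  · obtain ⟨k, _, h6⟩ := mem_image.mp h4
    rw [hy] at h6
    exact h2 _ _ (by rw [adj_iff]; simp) h6

theorem choosable_iff (s t b : ℕ) : Choosable (JG t (s + 2) b) (t + s + 2) ↔
    b < (t + s + 2).choose (t + 1) * (t + s + 2) ^ (s + 1) := by
  constructor
  · intro h
    by_contra hb
    exact not_choosable_of_le s t b (not_lt.mp hb) h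
  · exact choosable_of_lt s t b

end Pool.Agent.H88.Oh
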